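import Mathlib

set_option autoImplicit false

namespace Pool.Agent.Results.MP_db617b_an.FibreDisconnected

/-- The product of simplices `P` of the problem: pairs `(s, w)` with
`0 ≤ s_1 ≤ ... ≤ s_k ≤ 1`, `w_i ≥ 0` and `∑ w_i = 1`. -/
def P (k : ℕ) : Set ((Fin k → ℝ) × (Fin (k + 1) → ℝ)) :=
  {p | (∀ i, 0 ≤ p.1 i) ∧ (∀ i, p.1 i ≤ 1) ∧ Monotone p.1 ∧
    (∀ i, 0 ≤ p.2 i) ∧ ∑ i, p.2 i = 1}

/-- The sequence `s_0 = 0, s_1, ..., s_k, s_{k+1} = 1`. -/
def knots {k : ℕ} (s : Fin k → ℝ) : Fin (k + 2) → ℝ :=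
  Fin.cons (α := fun _ => ℝ) 0 (Fin.snoc (α := fun _ => ℝ) s 1)

/-- The moment map `μ_A`: its `a`-th coordinate at `(s, w)` is
`∑_{i=1}^{k+1} w_i (s_i^a + s_i^{a-1} s_{i-1} + ... + s_{i-1}^a) / (a+1)`
(here `i.succ` and `i.castSucc` index `s_i` and `s_{i-1}`). -/
noncomputable def mu (k : ℕ) (A : Finset ℕ) (p : (Fin k → ℝ) × (Fin (k + 1) → ℝ)) : A → ℝ :=
  fun a => ∑ i : Fin (k + 1), p.2 i *
    ((∑ j ∈ Finset.range ((a : ℕ) + 1),
      knots p.1 i.succ ^ ((a : ℕ) - j) * knots p.1 i.castSucc ^ j) / ((a : ℕ) + 1))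

/-- The fibre of `μ_A : P → ℝ^A` over `m`. -/
def fibre (k : ℕ) (A : Finset ℕ) (m : A → ℝ) : Set ((Fin k → ℝ) × (Fin (k + 1) → ℝ)) :=
  {p | p ∈ P k ∧ mu k A p = m}

theorem sum_knots (x y u v t : ℝ) (a : ℕ) :
    (∑ i : Fin 3, (![u, v, t] : Fin 3 → ℝ) i *
      ((∑ j ∈ Finset.range (a + 1),
        knots (![x, y] : Fin 2 → ℝ) i.succ ^ (a - j) * knots (![x, y] : Fin 2 → ℝ) i.castSucc ^ j)
          / ((a : ℝ) + 1))) =
    u * ((∑ j ∈ Finset.range (a + 1), x ^ (a - j) * 0 ^ j) / ((a : ℝ) + 1)) +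
    v * ((∑ j ∈ Finset.range (a + 1), y ^ (a - j) * x ^ j) / ((a : ℝ) + 1)) +
    t * ((∑ j ∈ Finset.range (a + 1), 1 ^ (a - j) * y ^ j) / ((a : ℝ) + 1)) := by
  rw [Fin.sum_univ_three]
  rfl

/-- The values of `μ_A` at `k = 2`. -/
theorem mu_apply (A : Finset ℕ) (x y u v t : ℝ) (a : A) :
    mu 2 A (![x, y], ![u, v, t]) a =
    u * ((∑ j ∈ Finset.range ((a : ℕ) + 1), x ^ ((a : ℕ) - j) * 0 ^ j) / (((a : ℕ) : ℝ) + 1)) +
    v * ((∑ j ∈ Finset.range ((a : ℕ) + 1), y ^ ((a : ℕ) - j) * x ^ j) / (((a : ℕ) : ℝ) + 1)) +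
    t * ((∑ j ∈ Finset.range ((a : ℕ) + 1), 1 ^ ((a : ℕ) - j) * y ^ j) / (((a : ℕ) : ℝ) + 1)) :=
  sum_knots x y u v t a

/-- The exponent set `{1, 2, 3}`. -/
def A₀ : Finset ℕ := {1, 2, 3}

/-- The moment vector over which the fibre is disconnected. -/
noncomputable def m₀ : A₀ → ℝ := fun a =>
  if (a : ℕ) = 1 then 9 / 20 else if (a : ℕ) = 2 then 17 / 60 else 207 / 1000

theorem mem_fibre_iff (x y u v t : ℝ) :
    mu 2 A₀ (![x, y], ![u, v, t]) = m₀ ↔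
      (u * x + v * (y + x) + t * (1 + y) = 9 / 10 ∧
       u * x ^ 2 + v * (y ^ 2 + y * x + x ^ 2) + t * (1 + y + y ^ 2) = 17 / 20 ∧
       u * x ^ 3 + v * (y ^ 3 + y ^ 2 * x + y * x ^ 2 + x ^ 3)
          + t * (1 + y + y ^ 2 + y ^ 3) = 207 / 250) := by
  constructor
  · intro h
    have h1 := congrFun h ⟨1, by simp [A₀]⟩
    have h2 := congrFun h ⟨2, by simp [A₀]⟩
    have h3 := congrFun h ⟨3, by simp [A₀]⟩
    rw [mu_apply] at h1 h2 h3
    simp only [m₀, Finset.sum_range_succ, Finset.sum_range_zero] at h1 h2 h3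
    norm_num at h1 h2 h3
    refine ⟨by linarith, by linarith, by linarith⟩
  · rintro ⟨h1, h2, h3⟩
    funext a
    obtain ⟨a, ha⟩ := a
    have ha' : a = 1 ∨ a = 2 ∨ a = 3 := by simpa [A₀] using ha
    rw [mu_apply]
    rcases ha' with rfl | rfl | rfl
    · simp only [m₀, Finset.sum_range_succ, Finset.sum_range_zero]
      norm_num
      linarith
    · simp only [m₀, Finset.sum_range_succ, Finset.sum_range_zero]
      norm_num
      linarith
    · simp only [m₀, Finset.sum_range_succ, Finset.sum_range_zero]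
      norm_num
      linarith

/-- Every point of the fibre lies over the hyperbola `(s₁ - 1/2)(s₂ - 1/2) = 3/100`. -/
theorem hyperbola (x y u v t : ℝ) (hs : u + v + t = 1)
    (h : mu 2 A₀ (![x, y], ![u, v, t]) = m₀) :
    (x - 1 / 2) * (y - 1 / 2) = 3 / 100 := by
  obtain ⟨h1, h2, h3⟩ := (mem_fibre_iff x y u v t).1 h
  linear_combination (-10) * (x * y * (hs - h1) - (x + y) * (h1 - h2) + (h2 - h3))

theorem mem_P_iff (x y u v t : ℝ) :
    ((![x, y], ![u, v, t]) : (Fin 2 → ℝ) × (Fin 3 → ℝ)) ∈ P 2 ↔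
      (0 ≤ x ∧ x ≤ y ∧ y ≤ 1 ∧ 0 ≤ u ∧ 0 ≤ v ∧ 0 ≤ t ∧ u + v + t = 1) := by
  constructor
  · rintro ⟨h0, h1, hm, hw, hs⟩
    refine ⟨by simpa using h0 0, by simpa using hm (show (0 : Fin 2) ≤ 1 by decide),
      by simpa using h1 1, by simpa using hw 0, by simpa using hw 1, by simpa using hw 2, ?_⟩
    simpa [Fin.sum_univ_three] using hs
  · rintro ⟨hx, hxy, hy, hu, hv, ht, hs⟩
    refine ⟨?_, ?_, ?_, ?_, ?_⟩
    · intro i; fin_cases i
      · simpa using hx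
      · simpa using hx.trans hxy
    · intro i; fin_cases i
      · simpa using hxy.trans hy
      · simpa using hy
    · intro i j hij
      fin_cases i <;> fin_cases j <;> simp_all
    · intro i; fin_cases i
      · simpa using hu
      · simpa using hv
      · simpa using ht
    · simpa [Fin.sum_univ_three] using hs

/-- **Main result.** There are `k ≥ 1`, a finite `A ⊆ ℕ` and `m ∈ ℝ^A` for which the fibre of
the step-function moment map `μ_A : P → ℝ^A` over `m` is disconnected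
(namely `k = 2`, `A = {1, 2, 3}`, `m = (9/20, 17/60, 207/1000)`). -/
theorem result : ∃ (k : ℕ) (A : Finset ℕ) (m : A → ℝ),
    1 ≤ k ∧ ¬ IsPreconnected (fibre k A m) := by
  refine ⟨2, A₀, m₀, by norm_num, ?_⟩
  intro hpre
  have hcont : Continuous (fun p : (Fin 2 → ℝ) × (Fin (2 + 1) → ℝ) => p.1 0 + p.1 1) := by
    fun_prop
  have him := (hpre.image _ hcont.continuousOn).ordConnected
  -- two points of the fibre, one on each branch of the hyperbola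
  have ha : ((![3 / 5, 4 / 5], ![57 / 80, 9 / 80, 7 / 40]) : (Fin 2 → ℝ) × (Fin 3 → ℝ)) ∈
      fibre 2 A₀ m₀ := by
    refine ⟨(mem_P_iff _ _ _ _ _).2 (by norm_num), (mem_fibre_iff _ _ _ _ _).2 (by norm_num)⟩
  have hb : ((![1 / 5, 2 / 5], ![9 / 40, 23 / 80, 39 / 80]) : (Fin 2 → ℝ) × (Fin 3 → ℝ)) ∈
      fibre 2 A₀ m₀ := by
    refine ⟨(mem_P_iff _ _ _ _ _).2 (by norm_num), (mem_fibre_iff _ _ _ _ _).2 (by norm_num)⟩
  have h1 : (1 : ℝ) ∈ (fun p : (Fin 2 → ℝ) × (Fin (2 + 1) → ℝ) => p.1 0 + p.1 1) ''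
      fibre 2 A₀ m₀ := by
    refine him.out ⟨_, hb, rfl⟩ ⟨_, ha, rfl⟩ ⟨?_, ?_⟩
    · norm_num
    · norm_num
  obtain ⟨⟨s, w⟩, ⟨hP, hmu⟩, hsum⟩ := h1
  have es : s = ![s 0, s 1] := by
    funext i; fin_cases i <;> rfl
  have ew : w = ![w 0, w 1, w 2] := by
    funext i; fin_cases i <;> rfl
  have hw : w 0 + w 1 + w 2 = 1 := by
    have := hP.2.2.2.2
    simpa [Fin.sum_univ_three] using this
  rw [es, ew] at hmu
  have hyp := hyperbola _ _ _ _ _ hw hmu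
  have hsum' : s 0 + s 1 = 1 := hsum
  have e1 : s 1 = 1 - s 0 := by linarith
  rw [e1] at hyp
  nlinarith [sq_nonneg (s 0 - 1 / 2)]

end Pool.Agent.Results.MP_db617b_an.FibreDisconnected
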